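import Pool.Agent.Q271.ZC.Stm

/-!
# ZC-SP: a prime ideal with trivial decomposition group
-/

set_option autoImplicit false
set_option linter.all false

namespace Pool.Agent.Q177.ZC

open NumberField Polynomial
open scoped Pointwise

section

variable {L : Type} [Field L] [NumberField L] [IsGalois ℚ L]

theorem smul_nat (σ : L ≃ₐ[ℚ] L) (n : ℕ) : σ • (n : 𝓞 L) = n :=
  map_natCast (MulSemiringAction.toRingHom (L ≃ₐ[ℚ] L) (𝓞 L) σ) n

theorem smul_int (σ : L ≃ₐ[ℚ] L) (n : ℤ) : σ • (n : 𝓞 L) = n :=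
  map_intCast (MulSemiringAction.toRingHom (L ≃ₐ[ℚ] L) (𝓞 L) σ) n

theorem coe_smul (σ : L ≃ₐ[ℚ] L) (x : 𝓞 L) : ((σ • x : 𝓞 L) : L) = σ (x : L) := rfl

/-- an integral primitive element -/
theorem exists_theta (L : Type) [Field L] [NumberField L] [IsGalois ℚ L] :
    ∃ θ : 𝓞 L, θ ≠ 0 ∧ ∀ σ : L ≃ₐ[ℚ] L, σ • θ = θ → σ = 1 := by
  obtain ⟨α, hα⟩ := Field.exists_primitive_element ℚ L
  have h1 : IsAlgebraic ℤ α := by
    have := Algebra.IsAlgebraic.isAlgebraic (R := ℚ) α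
    exact (IsFractionRing.isAlgebraic_iff ℤ ℚ L).2 this
  obtain ⟨y, hy, hyα⟩ := h1.exists_integral_multiple
  have h2 : ∀ σ : L ≃ₐ[ℚ] L, σ • (⟨y • α, hyα⟩ : 𝓞 L) = ⟨y • α, hyα⟩ → σ = 1 := by
    intro σ h
    have h4 : σ (y • α) = y • α := congrArg (fun z : 𝓞 L => (z : L)) h
    rw [map_zsmul] at h4
    have h5 : σ α = α := by
      rw [zsmul_eq_mul, zsmul_eq_mul] at h4
      exact mul_left_cancel₀ (by exact_mod_cast hy) h4
    apply AlgEquiv.coe_algHom_injective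
    have h6 : ∀ x ∈ (IntermediateField.adjoin ℚ {α} : IntermediateField ℚ L), σ x = x := by
      intro x hx
      induction hx using IntermediateField.adjoin_induction with
      | mem x hx =>
        rw [Set.mem_singleton_iff.1 hx]
        exact h5
      | algebraMap x => exact σ.commutes x
      | add x y _ _ hx hy => rw [map_add, hx, hy]
      | inv x _ hx => rw [map_inv₀, hx]
      | mul x y _ _ hx hy => rw [map_mul, hx, hy]
    ext x
    exact h6 x (by rw [hα]; exact IntermediateField.mem_top)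
  by_cases h0 : (⟨y • α, hyα⟩ : 𝓞 L) = 0
  · refine ⟨1, one_ne_zero, fun σ _ => h2 σ ?_⟩
    rw [h0, smul_zero]
  · exact ⟨_, h0, h2⟩

/-- the polynomial with the roots `σ θ` -/
noncomputable def PPo (θ : 𝓞 L) : (𝓞 L)[X] := ∏ σ : L ≃ₐ[ℚ] L, (X - C (σ • θ))

theorem PPo_eval (θ : 𝓞 L) (x : 𝓞 L) : (PPo θ).eval x = ∏ σ : L ≃ₐ[ℚ] L, (x - σ • θ) := by
  unfold PPo
  rw [eval_prod]
  simp only [eval_sub, eval_X, eval_C]

theorem PPo_monic (θ : 𝓞 L) : (PPo θ).Monic := monic_prod_of_monic _ _ fun σ _ => monic_X_sub_C _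

theorem PPo_deg (θ : 𝓞 L) : 0 < (PPo θ).natDegree := by
  unfold PPo
  rw [natDegree_prod_of_monic _ _ fun σ _ => monic_X_sub_C _]
  simp only [natDegree_X_sub_C, Finset.sum_const, smul_eq_mul, mul_one]
  exact Finset.card_pos.2 ⟨1, Finset.mem_univ _⟩

theorem PPo_int (θ : 𝓞 L) (n : ℤ) : ∃ N : ℤ, (N : 𝓞 L) = (PPo θ).eval (n : 𝓞 L) := by
  refine ⟨Algebra.norm ℤ ((n : 𝓞 L) - θ), ?_⟩
  apply RingOfIntegers.coe_injective
  rw [PPo_eval]
  have h1 := Algebra.norm_eq_prod_automorphisms ℚ (((n : 𝓞 L) - θ : 𝓞 L) : L)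
  rw [← Algebra.coe_norm_int] at h1
  rw [map_prod, map_intCast]
  rw [map_intCast] at h1
  rw [h1]
  refine Finset.prod_congr rfl fun σ _ => ?_
  show σ (algebraMap (𝓞 L) L ((n : 𝓞 L) - θ)) = algebraMap (𝓞 L) L ((n : 𝓞 L) - σ • θ)
  rw [map_sub, map_sub, map_sub, map_intCast, map_intCast]
  rfl

theorem int_dvd {x y : ℤ} (h : (x : 𝓞 L) ∣ (y : 𝓞 L)) : x ∣ y := by
  have h1 := map_dvd (Algebra.norm ℤ) h
  have h2 : ∀ z : ℤ, Algebra.norm ℤ (z : 𝓞 L) = z ^ Fintype.card _ := fun z => by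
    have := Algebra.norm_algebraMap_of_basis (RingOfIntegers.basis L) z
    rwa [algebraMap_int_eq, eq_intCast] at this
  rw [h2, h2] at h1
  refine (Int.pow_dvd_pow_iff ?_).1 h1
  have h3 := Module.finrank_eq_card_basis (RingOfIntegers.basis L)
  rw [← h3]
  exact (Module.finrank_pos (R := ℤ) (M := 𝓞 L)).ne'

theorem exists_c (θ : 𝓞 L) (hθ : θ ≠ 0) (D : ℕ) (hD : D ≠ 0) :
    ∃ (n c a : ℤ), (PPo θ).eval (n : 𝓞 L) = (a : 𝓞 L) * (c : 𝓞 L) ∧ c.natAbs ≠ 1 ∧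
      (D : ℤ) ∣ c - 1 := by
  obtain ⟨a, ha⟩ := PPo_int θ 0
  have ha0 : a ≠ 0 := by
    rintro rfl
    rw [PPo_eval, Int.cast_zero] at ha
    obtain ⟨σ, -, hσ⟩ := Finset.prod_eq_zero_iff.1 ha.symm
    rw [zero_sub, neg_eq_zero] at hσ
    apply hθ
    have := congrArg (fun z => σ⁻¹ • z) hσ
    simpa using this
  have hQ : (PPo θ - C (a : 𝓞 L)) * (PPo θ + C (a : 𝓞 L)) ≠ 0 := by
    have hd := PPo_deg θ
    apply mul_ne_zero
    · intro h
      rw [sub_eq_zero.1 h, natDegree_C] at hd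
      exact lt_irrefl _ hd
    · intro h
      rw [eq_neg_of_add_eq_zero_left h, natDegree_neg, natDegree_C] at hd
      exact lt_irrefl _ hd
  obtain ⟨m, hm⟩ : ∃ m : ℕ, ¬ IsRoot ((PPo θ - C (a : 𝓞 L)) * (PPo θ + C (a : 𝓞 L)))
      ((a * D * m : ℤ) : 𝓞 L) := by
    by_contra hcon
    push Not at hcon
    apply hQ
    apply eq_zero_of_infinite_isRoot
    refine Set.infinite_of_injective_forall_mem (f := fun m : ℕ => ((a * D * m : ℤ) : 𝓞 L)) ?_ hcon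
    intro m m' h
    have h0 : ((a * D * m : ℤ) : 𝓞 L) = ((a * D * m' : ℤ) : 𝓞 L) := h
    have h1 : (a * D * m : ℤ) = a * D * m' := by exact_mod_cast h0
    have h2 : (a * D : ℤ) ≠ 0 := mul_ne_zero ha0 (by exact_mod_cast hD)
    exact_mod_cast mul_left_cancel₀ h2 h1
  obtain ⟨N, hN⟩ := PPo_int θ (a * D * m)
  have hdvd : (a * D * m : ℤ) ∣ N - a := by
    apply int_dvd (L := L)
    have h1 := sub_dvd_eval_sub ((a * D * m : ℤ) : 𝓞 L) ((0 : ℤ) : 𝓞 L) (PPo θ)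
    rw [← hN, ← ha, Int.cast_zero, sub_zero] at h1
    rw [Int.cast_sub]
    exact h1
  obtain ⟨k, hk⟩ := hdvd
  refine ⟨a * D * m, 1 + D * m * k, a, ?_, ?_, ⟨m * k, by ring⟩⟩
  · rw [← hN, ← Int.cast_mul]
    congr 1
    linear_combination hk
  · intro h
    apply hm
    rw [IsRoot, eval_mul, eval_sub, eval_add, eval_C, ← hN]
    have h1 : N = a * (1 + D * m * k) := by linear_combination hk
    rcases Int.natAbs_eq_iff.1 h with h2 | h2
    · rw [h1, h2]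
      push_cast
      ring
    · rw [h1, h2]
      push_cast
      ring

end

theorem absNorm_smul {L : Type} [Field L] [NumberField L] (σ : L ≃ₐ[ℚ] L) (v : Ideal (𝓞 L)) :
    Ideal.absNorm (σ • v) = Ideal.absNorm v := by
  rw [Ideal.absNorm_apply, Ideal.absNorm_apply]
  unfold Submodule.cardQuot
  have e := Ideal.quotientEquiv v (σ • v) (MulSemiringAction.toRingEquiv (L ≃ₐ[ℚ] L) (𝓞 L) σ) rfl
  exact (Nat.card_congr e.toEquiv).symm

theorem split : Pool.Agent.Q271.ZC.S_split := by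
  classical
  intro L _ _ _
  obtain ⟨θ, hθ, hθσ⟩ := exists_theta L
  set δ : 𝓞 L := ∏ σ ∈ Finset.univ.filter (fun σ : L ≃ₐ[ℚ] L => σ ≠ 1), (θ - σ • θ) with hδ
  have hδ0 : δ ≠ 0 := by
    rw [hδ, Finset.prod_ne_zero_iff]
    intro σ hσ h
    exact (Finset.mem_filter.1 hσ).2 (hθσ σ (sub_eq_zero.1 h).symm)
  set D := Ideal.absNorm (Ideal.span {δ}) with hD
  have hD0 : D ≠ 0 := by
    rw [hD, Ne, Ideal.absNorm_eq_zero_iff, Ideal.span_singleton_eq_bot]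
    exact hδ0
  obtain ⟨n, c, a, hc, hc1, hcD⟩ := exists_c θ hθ D hD0
  obtain ⟨p, hp, hpc⟩ := Nat.exists_prime_and_dvd hc1
  have hpc' : (p : ℤ) ∣ c := Int.natCast_dvd.2 hpc
  have hpD : ¬ (p : ℤ) ∣ (D : ℤ) := by
    intro h
    have h1 : (p : ℤ) ∣ 1 := by
      have h2 : (1 : ℤ) = c - (c - 1) := by ring
      rw [h2]
      exact dvd_sub hpc' (h.trans hcD)
    have h3 := Int.natCast_dvd_natCast.1 (by exact_mod_cast h1 : ((p : ℕ) : ℤ) ∣ ((1 : ℕ) : ℤ))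
    exact hp.one_lt.ne' (Nat.dvd_one.1 h3)
  have hpO : Ideal.span {(p : 𝓞 L)} ≠ ⊤ := by
    rw [Ne, ← Ideal.absNorm_eq_one_iff, Ideal.absNorm_span_natCast]
    exact (Nat.one_lt_pow (Module.finrank_pos (R := ℤ) (M := 𝓞 L)).ne' hp.one_lt).ne'
  obtain ⟨v0, hv0, hpv0⟩ := Ideal.exists_le_maximal _ hpO
  have hpv0' : (p : 𝓞 L) ∈ v0 := hpv0 (Ideal.mem_span_singleton_self _)
  have h1 : (PPo θ).eval (n : 𝓞 L) ∈ v0 := by
    rw [hc]
    obtain ⟨k, hk⟩ := hpc'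
    rw [hk]
    push_cast
    rw [mul_left_comm]
    exact v0.mul_mem_right _ hpv0'
  rw [PPo_eval] at h1
  obtain ⟨τ, -, hτ⟩ := (Ideal.IsPrime.prod_mem_iff (hp := hv0.isPrime)).1 h1
  -- the prime ideal
  set v : Ideal (𝓞 L) := τ⁻¹ • v0 with hv
  have hmemp : ∀ (σ : L ≃ₐ[ℚ] L) (w : Ideal (𝓞 L)), (p : 𝓞 L) ∈ w → (p : 𝓞 L) ∈ σ • w := by
    intro σ w h
    rw [Ideal.mem_pointwise_smul_iff_inv_smul_mem, smul_nat]
    exact h
  have hpv : (p : 𝓞 L) ∈ v := hmemp _ _ hpv0'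
  have hvprime : v.IsPrime := by
    haveI := hv0.isPrime
    rw [hv]
    infer_instance
  have hnθ : (n : 𝓞 L) - θ ∈ v := by
    rw [hv, Ideal.mem_inv_pointwise_smul_iff, smul_sub, smul_int]
    exact hτ
  have hDv : (D : 𝓞 L) ∉ v := by
    intro h
    have hcop : IsCoprime (p : ℤ) (D : ℤ) :=
      ((Nat.prime_iff_prime_int.1 hp).irreducible.coprime_iff_not_dvd).2 hpD
    obtain ⟨x, y, hxy⟩ := hcop
    apply hvprime.ne_top
    rw [Ideal.eq_top_iff_one]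
    have h2 : (1 : 𝓞 L) = (x : 𝓞 L) * (p : 𝓞 L) + (y : 𝓞 L) * (D : 𝓞 L) := by
      exact_mod_cast hxy.symm
    rw [h2]
    exact v.add_mem (v.mul_mem_left _ hpv) (v.mul_mem_left _ h)
  have hstab : ∀ σ : L ≃ₐ[ℚ] L, σ • v = v → σ = 1 := by
    intro σ hσ
    by_contra hne
    apply hDv
    have h2 : (n : 𝓞 L) - σ • θ ∈ v := by
      rw [← hσ, Ideal.mem_pointwise_smul_iff_inv_smul_mem, smul_sub, smul_int,
        inv_smul_smul]
      exact hnθ
    have h3 : θ - σ • θ ∈ v := by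
      have h4 : θ - σ • θ = ((n : 𝓞 L) - σ • θ) - ((n : 𝓞 L) - θ) := by ring
      rw [h4]
      exact v.sub_mem h2 hnθ
    have h4 : δ ∈ v := by
      rw [hδ]
      exact (Ideal.IsPrime.prod_mem_iff (hp := hvprime)).2
        ⟨σ, Finset.mem_filter.2 ⟨Finset.mem_univ _, hne⟩, h3⟩
    exact (Ideal.span_singleton_le_iff_mem v).2 h4 (Ideal.absNorm_mem _)
  have hp0 : (p : 𝓞 L) ≠ 0 := by exact_mod_cast hp.ne_zero
  have hmax : ∀ σ : L ≃ₐ[ℚ] L, (σ • v).IsMaximal := by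
    intro σ
    haveI : (σ • v).IsPrime := inferInstance
    refine Ideal.IsPrime.isMaximal this ?_
    intro h
    have h2 := hmemp σ v hpv
    rw [h, Ideal.mem_bot] at h2
    exact hp0 h2
  have hdvd : ∏ σ : L ≃ₐ[ℚ] L, σ • v ∣ Ideal.span {(p : 𝓞 L)} := by
    refine Finset.prod_dvd_of_coprime ?_ ?_
    · intro σ _ τ _ hne
      show IsCoprime (σ • v) (τ • v)
      rw [Ideal.isCoprime_iff_sup_eq]
      refine (hmax σ).coprime_of_ne (hmax τ) ?_
      intro h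
      apply hne
      have h2 : (τ⁻¹ * σ) • v = v := by rw [mul_smul, h, inv_smul_smul]
      have h3 := hstab _ h2
      exact (inv_mul_eq_one.1 h3).symm
    · intro σ _
      rw [Ideal.dvd_span_singleton]
      exact hmemp σ v hpv
  have hcard : Fintype.card (L ≃ₐ[ℚ] L) = Module.finrank ℤ (𝓞 L) := by
    rw [RingOfIntegers.rank, ← Nat.card_eq_fintype_card]
    exact IsGalois.card_aut_eq_finrank ℚ L
  have hd0 : Module.finrank ℤ (𝓞 L) ≠ 0 := (Module.finrank_pos (R := ℤ) (M := 𝓞 L)).ne'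
  have hnorm : Ideal.absNorm (∏ σ : L ≃ₐ[ℚ] L, σ • v) =
      Ideal.absNorm v ^ Module.finrank ℤ (𝓞 L) := by
    rw [map_prod, Finset.prod_congr rfl (fun σ _ => absNorm_smul σ v), Finset.prod_const,
      Finset.card_univ, hcard]
  have hq : Ideal.absNorm v = p := by
    have h2 : Ideal.absNorm v ∣ p ^ Module.finrank ℤ (𝓞 L) := by
      rw [← Ideal.absNorm_span_natCast (S := 𝓞 L)]
      exact Ideal.absNorm_dvd_absNorm_of_le ((Ideal.span_singleton_le_iff_mem v).2 hpv)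
    obtain ⟨k, -, hk⟩ := (Nat.dvd_prime_pow hp).1 h2
    have h3 : Ideal.absNorm v ^ Module.finrank ℤ (𝓞 L) ∣ p ^ Module.finrank ℤ (𝓞 L) := by
      rw [← hnorm, ← Ideal.absNorm_span_natCast (S := 𝓞 L)]
      exact map_dvd Ideal.absNorm hdvd
    have h4 : Ideal.absNorm v ∣ p := (Nat.pow_dvd_pow_iff hd0).1 h3
    rcases (Nat.dvd_prime hp).1 h4 with h5 | h5
    · exact absurd (Ideal.absNorm_eq_one_iff.1 h5) hvprime.ne_top
    · exact h5
  refine ⟨p, v, hp, hvprime, hq, hstab, ?_⟩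
  obtain ⟨J, hJ⟩ := hdvd
  have h2 := congrArg Ideal.absNorm hJ
  rw [map_mul, hnorm, hq, Ideal.absNorm_span_natCast] at h2
  have h3 : Ideal.absNorm J = 1 := by
    have h4 : 0 < p ^ Module.finrank ℤ (𝓞 L) := pow_pos hp.pos _
    have h5 : p ^ Module.finrank ℤ (𝓞 L) * 1 = p ^ Module.finrank ℤ (𝓞 L) * Ideal.absNorm J := by
      rw [mul_one]
      exact h2
    exact (Nat.eq_of_mul_eq_mul_left h4 h5).symm
  rw [hJ, Ideal.absNorm_eq_one_iff.1 h3, Ideal.mul_top]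

end Pool.Agent.Q177.ZC
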